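import Pool.Agent.Lib.MP_efe3d7_co.R10

set_option autoImplicit false

namespace Pool.Agent.Results.MP_efe3d7_co.FiveFourths

/-- Let `G` have `n ≥ 3` vertices and a vertex `z` such that `G - z` is connected and `G - S` is
connected for every set `S` of at most two vertices avoiding `z` (every 3-connected graph is of
this kind, for every `z`). Then `(-1)^n` times the chromatic polynomial of `G` (Whitney expansion)
is positive on `(1, 5/4]`. -/
theorem result :
    ∀ (n : ℕ) (G : SimpleGraph (Fin n)) [DecidableRel G.Adj] (z : Fin n),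
      3 ≤ n →
      (G.induce ((↑({z} : Finset (Fin n)) : Set (Fin n))ᶜ)).Connected →
      (∀ S : Finset (Fin n), S.card ≤ 2 → z ∉ S →
        (G.induce ((↑S : Set (Fin n))ᶜ)).Connected) →
      ∀ x : ℝ, 1 < x → x ≤ 5 / 4 →
        0 < (-1 : ℝ) ^ n * ∑ T ∈ G.edgeFinset.powerset,
          (-1 : ℝ) ^ T.card *
            x ^ Nat.card (SimpleGraph.fromEdgeSet (↑T : Set (Sym2 (Fin n)))).ConnectedComponent := by
  intro n G _ z hn hz hG x h1 h2
  have e : x = 1 + (x - 1) := by ring
  obtain ⟨μ, L, P⟩ := Pool.Agent.Lib.MP_efe3d7_co.pn_of (x := x - 1) (by linarith) (by linarith)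
  rw [e]
  exact Pool.Agent.Lib.MP_efe3d7_co.chrom_pos_root2 P G hn z hz hG

end Pool.Agent.Results.MP_efe3d7_co.FiveFourths
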