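import Pool.Agent.Lib.MP_efe3d7_co.J.Hk
import Pool.Agent.Lib.MP_efe3d7_co.J.DZ
import Pool.Agent.Lib.MP_efe3d7_co.J.WZ
import Pool.Agent.Lib.MP_efe3d7_co.J.Clu
import Pool.Agent.Lib.MP_efe3d7_co.D.All
import Pool.Agent.Lib.MP_efe3d7_co.Whit

set_option autoImplicit false

namespace Pool.Agent.Results.MP_efe3d7_co.Jackson

open Pool.Agent.Lib.MP_efe3d7_co Polynomial

/-- Jackson's conjecture. `P` is the chromatic polynomial of the 3-connected graph `G` of order
`n`, `K` that of `K_{3,4}`, and `t` the zero of `K` whose decimal expansion begins `1.781`. Then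
`(-1)^n P` is positive on `(1, t)`. -/
theorem result :
    ∀ (n : ℕ) (G : SimpleGraph (Fin n)),
      4 ≤ n →
      (∀ S : Finset (Fin n), S.card ≤ 2 → (G.induce ((↑S : Set (Fin n))ᶜ)).Connected) →
      ∀ P : Polynomial ℝ,
        (∀ q : ℕ, 0 < q → P.eval (q : ℝ) = (Nat.card (G.Coloring (Fin q)) : ℝ)) →
      ∀ K : Polynomial ℝ,
        (∀ q : ℕ, 0 < q → K.eval (q : ℝ) =
          (Nat.card ((completeBipartiteGraph (Fin 3) (Fin 4)).Coloring (Fin q)) : ℝ)) →
      ∀ t : ℝ, K.eval t = 0 → 1781 / 1000 ≤ t → t < 1782 / 1000 →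
      ∀ x : ℝ, 1 < x → x < t → 0 < (-1 : ℝ) ^ n * P.eval x := by
  classical
  intro n G hn hG P hP K hK t ht t1 t2 x h1 h2
  have eP := Whit.ext_pos P (∑ T ∈ G.edgeFinset.powerset, C ((-1 : ℝ) ^ T.card) *
      X ^ Nat.card (SimpleGraph.fromEdgeSet (↑T : Set (Sym2 (Fin n)))).ConnectedComponent)
    fun q h => by
      rw [hP q h, Whit.whitney, eval_finsetSum]
      simp only [eval_mul, eval_C, eval_pow, eval_X]
  have eK := Whit.ext_pos K (X * (X - 1) ^ 4 + 3 * X * (X - 1) * (X - 2) ^ 4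
      + X * (X - 1) * (X - 2) * (X - 3) ^ 4) fun q h => by
    rw [hK q h, Whit.k34]
    simp
  have f : ∀ y : ℝ, J.pK y = y * (y - 1) *
      (1 - (4 * (2 - y) + (2 - y) ^ 2 + 7 * (2 - y) ^ 3 + (2 - y) ^ 4 + (2 - y) ^ 5)) := by
    intro y
    unfold J.pK
    ring
  have k : J.pK t = 0 := by
    rw [eK] at ht
    simpa [J.pK] using ht
  rw [f] at k
  have k := (mul_eq_zero.1 k).resolve_left (mul_pos (by linarith) (by linarith)).ne'
  rw [eP, eval_finsetSum]
  simp only [eval_mul, eval_C, eval_pow, eval_X]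
  refine J.main_of (fun _ _ h k => ⟨D.roots h k, fun _ _ => J.fans_red h, J.win_all h k,
    J.clu h k⟩) n G hn hG x h1 fun y y1 y2 => ?_
  have a : 0 ≤ 2 - t := by linarith
  have b : 2 - t ≤ 2 - y := by linarith
  have := pow_le_pow_left₀ a b 2
  have := pow_le_pow_left₀ a b 3
  have := pow_le_pow_left₀ a b 4
  have := pow_le_pow_left₀ a b 5
  rw [f]
  exact mul_ne_zero (mul_pos (by linarith) (by linarith)).ne' (ne_of_lt (by linarith))

end Pool.Agent.Results.MP_efe3d7_co.Jackson
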